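import Pool.Agent.H.MP_c90f74_nt.BD.Defs

/-!
# BD/Lvl: the classes modulo 12 and modulo 36
-/

set_option autoImplicit false

namespace Pool.Agent.H.MP_c90f74_nt.BD

/-- The classes modulo `12` which are left. -/
def S1 : List (List ℕ) := [
  [7, 6, 1], [11, 6, 5], [7, 6, 0, 0], [8, 7, 2, 0], [7, 5, 5, 1], [6, 6, 6, 1], [11, 6, 4, 4], [11, 5, 5, 5], [10, 10, 6, 5],
  [7, 5, 5, 0, 0], [6, 6, 6, 0, 0], [8, 7, 1, 1, 0], [9, 8, 3, 1, 0], [8, 6, 6, 2, 0], [7, 7, 7, 2, 0], [11, 11, 7, 6, 0],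
  [7, 5, 4, 4, 1], [6, 6, 5, 5, 1], [10, 8, 6, 4, 2], [11, 11, 8, 7, 2], [11, 6, 4, 3, 3], [11, 5, 5, 4, 4], [10, 10, 6, 4, 4],
  [10, 10, 5, 5, 5], [10, 9, 9, 6, 5], [8, 7, 1, 0, 0, 0], [9, 8, 3, 0, 0, 0], [7, 5, 4, 4, 0, 0], [6, 6, 5, 5, 0, 0],
  [8, 6, 6, 1, 1, 0], [7, 7, 7, 1, 1, 0], [9, 8, 2, 2, 1, 0], [10, 9, 4, 2, 1, 0], [9, 7, 7, 3, 1, 0], [8, 8, 8, 3, 1, 0],
  [8, 6, 5, 5, 2, 0], [7, 7, 6, 6, 2, 0], [11, 9, 7, 5, 3, 0], [11, 11, 7, 5, 5, 0], [11, 11, 6, 6, 6, 0], [11, 10, 10, 7, 6, 0],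
  [10, 8, 6, 4, 1, 1], [11, 11, 8, 7, 1, 1], [7, 5, 4, 3, 3, 1], [11, 11, 9, 8, 3, 1], [7, 4, 4, 4, 4, 1], [6, 6, 5, 4, 4, 1],
  [6, 5, 5, 5, 5, 1], [11, 6, 4, 3, 2, 2], [10, 8, 6, 3, 3, 2], [10, 8, 5, 5, 4, 2], [10, 7, 7, 6, 4, 2], [9, 9, 8, 6, 4, 2],
  [11, 11, 8, 6, 6, 2], [11, 11, 7, 7, 7, 2], [11, 10, 10, 8, 7, 2], [11, 6, 3, 3, 3, 3], [11, 5, 5, 4, 3, 3],
  [10, 10, 6, 4, 3, 3], [11, 5, 4, 4, 4, 4], [10, 10, 5, 5, 4, 4], [10, 9, 9, 6, 4, 4], [10, 9, 9, 5, 5, 5], [10, 9, 8, 8, 6, 5],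
  [9, 9, 9, 9, 6, 5], [11, 11, 11, 11, 7, 6]]

/-- The classes modulo `36` which are left. -/
def S2 : List (List ℕ) := [
  [6, 12, 18, 24, 30], [0, 7, 13, 19, 25, 31], [5, 5, 12, 18, 24, 30], [6, 11, 11, 18, 24, 30], [6, 12, 17, 17, 24, 30],
  [6, 12, 18, 23, 23, 30], [6, 12, 18, 24, 29, 29]]

set_option maxRecDepth 100000 in
theorem lvl1_all : ((List.range 7).all fun d => lvl1 S1 d 0 1 []) = true := by decide +kernel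

set_option maxRecDepth 100000 in
theorem lvl2_all : (S1.all fun R => leaf1 S2 R) = true := by decide +kernel

end Pool.Agent.H.MP_c90f74_nt.BD
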