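import Pool.Agent.H.MP_c90f74_nt.BD.Sound2
import Pool.Agent.H.MP_c90f74_nt.BD.Lvl

/-!
# BD/Big2: the numbers `n ≥ 8192`, with `k ≤ 180`
-/

set_option autoImplicit false

namespace Pool.Agent.H.MP_c90f74_nt.BE

open BD

theorem two_pow_mod (M e : ℕ) : 2 ^ e ≡ 2 ^ (e % M) [MOD 2 ^ M - 1] := by
  have h1 : 2 ^ M ≡ 1 [MOD 2 ^ M - 1] := by
    have h2 : 1 ≤ 2 ^ M := Nat.one_le_two_pow
    exact ((Nat.modEq_iff_dvd' h2).2 dvd_rfl).symm
  conv_lhs => rw [← Nat.div_add_mod e M, pow_add, pow_mul]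
  calc (2 ^ M) ^ (e / M) * 2 ^ (e % M) ≡ 1 ^ (e / M) * 2 ^ (e % M) [MOD 2 ^ M - 1] :=
        Nat.ModEq.mul_right _ (h1.pow _)
    _ = 2 ^ (e % M) := by rw [one_pow, one_mul]

theorem sp_mod (M : ℕ) (es : List ℕ) : 1 + sp es ≡ 1 + sp (es.map (· % M)) [MOD 2 ^ M - 1] := by
  refine Nat.ModEq.add_left 1 ?_
  induction es with
  | nil => rfl
  | cons e es ih =>
    rw [List.map_cons, sp_cons, sp_cons]
    exact (two_pow_mod M e).add ih

theorem sp_perm {es fs : List ℕ} (h : es.Perm fs) : sp es = sp fs := by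
  unfold sp
  exact (h.map _).sum_eq

theorem pow_le_sp (es : List ℕ) (e : ℕ) (h : e ∈ es) : 2 ^ e ≤ sp es := by
  induction es with
  | nil => simp at h
  | cons a es ih =>
    rw [sp_cons]
    rcases List.mem_cons.1 h with h1 | h1
    · rw [h1]
      exact Nat.le_add_right _ _
    · exact (ih h1).trans (Nat.le_add_left _ _)

theorem cand_self (M K : ℕ) (es : List ℕ) (h : ∀ e ∈ es, e ≤ M * K) :
    List.Forall₂ (fun r e => ∃ t, e = r + M * t ∧ (t < K ∨ (t = K ∧ r = 0))) (es.map (· % M)) es := by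
  induction es with
  | nil => exact List.Forall₂.nil
  | cons e es ih =>
    rw [List.map_cons]
    refine List.Forall₂.cons ⟨e / M, (Nat.mod_add_div e M).symm, ?_⟩
      (ih fun a ha => h a (List.mem_cons_of_mem _ ha))
    have h1 := h e List.mem_cons_self
    have h2 : e / M ≤ K := Nat.div_le_of_le_mul h1
    rcases h2.lt_or_eq with h3 | h3
    · exact Or.inl h3
    · refine Or.inr ⟨h3, ?_⟩
      have h4 := Nat.mod_add_div e M
      rw [h3] at h4
      omega

theorem cand_mod (M K : ℕ) (hM : 0 < M) (hK : 0 < K) (es : List ℕ) :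
    List.Forall₂ (fun r e => ∃ t, e = r + M * t ∧ (t < K ∨ (t = K ∧ r = 0))) (es.map (· % M))
      (es.map (· % (M * K))) := by
  induction es with
  | nil => exact List.Forall₂.nil
  | cons e es ih =>
    rw [List.map_cons, List.map_cons]
    refine List.Forall₂.cons ⟨e % (M * K) / M, ?_, Or.inl ?_⟩ ih
    · have h1 := Nat.mod_add_div (e % (M * K)) M
      rw [Nat.mod_mul_right_mod] at h1
      exact h1.symm
    · rw [Nat.div_lt_iff_lt_mul hM, mul_comm K M]
      exact Nat.mod_lt _ (Nat.mul_pos hM hK)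

theorem actb_bad {n : ℕ} (hn : 8192 ≤ n) (h : actb n = true) : Bad n := by
  unfold actb at h
  have h1 : Nat.blt n 8192 = false := by
    rw [← Bool.not_eq_true, Nat.blt_eq]
    omega
  rw [h1] at h
  exact act_bad n h

theorem leaf2_spec {S : List (List ℕ)} {es : List ℕ} {x : ℕ} (h : leaf2 S es x = true) :
    actb x = true ∧ (hit P36 x = true ∨ srt es ∈ S) := by
  unfold leaf2 at h
  cases h1 : actb x with
  | false => rw [h1] at h; simp at h
  | true =>
    rw [h1] at h
    refine ⟨rfl, ?_⟩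
    cases h2 : hit P36 x with
    | true => exact Or.inl rfl
    | false =>
      rw [h2] at h
      exact Or.inr (List.contains_iff_mem.1 h)

theorem leaf3_spec {es : List ℕ} {x : ℕ} (h : leaf3 es x = true) : actb x = true ∧ hit P180 x = true := by
  unfold leaf3 at h
  cases h1 : actb x with
  | false => rw [h1] at h; simp at h
  | true =>
    rw [h1] at h
    exact ⟨rfl, h⟩

theorem exists_sorted (M : ℕ) (es : List ℕ) :
    ∃ fs : List ℕ, fs.Perm es ∧ (fs.map (· % M)).Pairwise (· ≤ ·) := by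
  have : Std.Total (fun a b : ℕ => a % M ≤ b % M) := ⟨fun a b => le_total _ _⟩
  have : IsTrans ℕ (fun a b : ℕ => a % M ≤ b % M) := ⟨fun a b c h1 h2 => le_trans h1 h2⟩
  refine ⟨es.insertionSort (fun a b => a % M ≤ b % M), List.perm_insertionSort _ _, ?_⟩
  rw [List.pairwise_map]
  exact List.pairwise_insertionSort _ _

/-- The sorted residues of a permuted list. -/
theorem srt_eq {gs us l : List ℕ} (hp : us.Perm gs) (hs : (us.map (· % 36)).Pairwise (· ≤ ·))
    (hl : l.Perm (gs.map (· % 36))) : srt l = us.map (· % 36) := by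
  unfold srt
  refine List.Perm.eq_of_pairwise' (List.pairwise_insertionSort _ _) hs ?_
  refine (List.perm_insertionSort _ _).trans ?_
  have h1 : (l.map (· % 36)).Perm ((gs.map (· % 36)).map (· % 36)) := hl.map _
  have h2 : (gs.map (· % 36)).map (· % 36) = gs.map (· % 36) := by
    rw [List.map_map]
    refine List.map_congr_left fun a _ => ?_
    simp
  rw [h2] at h1
  exact h1.trans (hp.map _).symm

theorem big (hall : ∀ R ∈ S2, lift 36 5 leaf3 R [] 1 = true) (es : List ℕ) (hd : es.length ≤ 6) (hn : 8192 ≤ 1 + sp es) :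
    Bad (1 + sp es) := by
  obtain ⟨fs, hp, hs⟩ := exists_sorted 12 es
  rw [← sp_perm hp] at hn ⊢
  have hlen : fs.length ≤ 6 := by
    rw [hp.length_eq]
    exact hd
  have h1 := List.all_eq_true.1 lvl1_all fs.length (List.mem_range.2 (by omega))
  have h2 := lvl1_spec S1 fs.length 0 1 [] h1 (fs.map (· % 12)) (by rw [List.length_map]) hs
    (by
      intro e he
      obtain ⟨a, -, rfl⟩ := List.mem_map.1 he
      exact ⟨Nat.zero_le _, Nat.mod_lt _ (by norm_num)⟩)
  rcases h2 with h2 | h2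
  · exact hit_bad 12 (by norm_num) P12 ok12 _ _ h2 (sp_mod 12 fs) (by norm_num; exact hn)
  rw [List.append_nil, ← List.map_reverse] at h2
  obtain ⟨gs, hgs⟩ : ∃ gs : List ℕ, gs = fs.reverse := ⟨_, rfl⟩
  rw [← hgs] at h2
  have hsp : sp fs = sp gs := sp_perm (by rw [hgs]; exact (List.reverse_perm fs).symm)
  rw [hsp] at hn ⊢
  have h3 := List.all_eq_true.1 lvl2_all _ h2
  unfold leaf1 at h3
  have h4 := lift_spec 12 3 (leaf2 S2) _ _ _ h3
  by_cases hc : ∀ e ∈ gs, e ≤ 12 * 3
  · have h5 := h4 gs (cand_self 12 3 gs hc)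
    exact actb_bad hn (leaf2_spec h5).1
  push Not at hc
  obtain ⟨e, he, he2⟩ := hc
  have hbig : 2 ^ (36 + 1) ≤ 1 + sp gs := by
    have h6 := pow_le_sp gs e he
    have h7 : 2 ^ (36 + 1) ≤ 2 ^ e := Nat.pow_le_pow_right (by norm_num) (by omega)
    omega
  have h5 := h4 (gs.map (· % (12 * 3))) (cand_mod 12 3 (by norm_num) (by norm_num) gs)
  obtain ⟨us, hus, hus2⟩ := exists_sorted 36 gs
  have hsp2 : sp gs = sp us := (sp_perm hus).symm
  rcases (leaf2_spec h5).2 with h6 | h6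
  · exact hit_bad 36 (by norm_num) P36 ok36 _ _ h6 (sp_mod 36 gs) hbig
  rw [srt_eq hus hus2 (by rw [List.append_nil]; exact List.reverse_perm _)] at h6
  rw [hsp2] at hn hbig ⊢
  have h7 := lift_spec 36 5 leaf3 _ _ _ (hall _ h6)
  by_cases hc2 : ∀ e ∈ us, e ≤ 36 * 5
  · have h8 := h7 us (cand_self 36 5 us hc2)
    exact actb_bad hn (leaf3_spec h8).1
  push Not at hc2
  obtain ⟨e', he', he2'⟩ := hc2
  have hbig2 : 2 ^ (180 + 1) ≤ 1 + sp us := by
    have h9 := pow_le_sp us e' he'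
    have h10 : 2 ^ (180 + 1) ≤ 2 ^ e' := Nat.pow_le_pow_right (by norm_num) (by omega)
    omega
  have h8 := h7 (us.map (· % (36 * 5))) (cand_mod 36 5 (by norm_num) (by norm_num) us)
  exact hit_bad 180 le_rfl P180 ok180 _ _ (leaf3_spec h8).2 (sp_mod 180 us) hbig2

end Pool.Agent.H.MP_c90f74_nt.BE
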