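import Mathlib

/-!
# BD/Defs: integers with few binary digits

A tree of residue classes of the exponents modulo 12, 36 and 180.
-/

set_option autoImplicit false

namespace Pool.Agent.H.MP_c90f74_nt.BD

/-- The bit mask of the powers `2^k mod p`, `1 ≤ k ≤ m`. -/
def mkMask (p : ℕ) : ℕ → ℕ
  | 0 => 0
  | m + 1 => Nat.lor (mkMask p m) (Nat.pow 2 (Nat.mod (Nat.pow 2 (m + 1)) p))

/-- The bit `v` of `m`. -/
def tb (m v : ℕ) : Bool := Nat.beq (Nat.mod (Nat.div m (Nat.pow 2 v)) 2) 1

/-- Some residue of `x` is a power of `2`. -/
def hit : List (ℕ × ℕ) → ℕ → Bool
  | [], _ => false
  | q :: l, x => match tb q.2 (Nat.mod x q.1) with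
    | true => true
    | false => hit l x

/-- Some residue of `x` is a power `2^k` with small `k`. -/
def act : List (ℕ × ℕ × ℕ) → ℕ → Bool
  | [], _ => false
  | q :: l, x => match Nat.blt (Nat.add (Nat.pow 2 q.2.1) q.1) x with
    | true => match tb q.2.2 (Nat.mod x q.1) with
      | true => true
      | false => act l x
    | false => act l x

def P12 : List (ℕ × ℕ) := [(3, 6), (5, 30), (13, 8190), (7, 22)]

def P36 : List (ℕ × ℕ) := [(37, 137438953470), (19, 524286), (109, 529894126590076699003748065411350), (73, 18482773012462502166)]

def P180 : List (ℕ × ℕ) := [
  (181, 3064991081731777716716694054300618367237478244367204350),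
  (61, 2305843009213693950),
  (11, 2046),
  (41, 1870503675702),
  (31, 65814),
  (151, 340614714484742660938056006244441325846),
  (331, 3571437076710188151892107504738681207551092945356336786551813136291123572942463336650862439019118870),
  (631, 4353206989632755819116152125199791263958692745381277078264450037731551952411631868325263512032878993908462939466973142628275976139950117067897983719112893524653740977262551884326179504406),
  (1321, 37371343413441662917475493198542187456321869811380775104049036226712161953879930690606154545248456412150865634752225166341339440133983920548860875957304435067626704278416381161864102692232041215429255688966337887545389470897326094593649448508344067483118408605516320480106220731309016295384218460058944310637886083079122858368650464440130470305563845202397116334540223000448854891624300250851770646)]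

def PA : List (ℕ × ℕ × ℕ) := [
  (101, 100, 2535301200456458802993406410750),
  (83, 82, 9671406556917033397649406),
  (61, 60, 2305843009213693950),
  (37, 36, 137438953470),
  (29, 28, 536870910),
  (19, 18, 524286),
  (11, 10, 2046),
  (67, 66, 147573952589676412926),
  (59, 58, 576460752303423486),
  (53, 52, 9007199254740990),
  (17, 8, 107286),
  (23, 11, 340830),
  (41, 20, 1870503675702),
  (47, 23, 4626135339998)]

/-- All lists of exponents `e = r + M t`, `t < K` (or `r = 0`, `t = K`). -/
def lift (M : ℕ) (K : ℕ) (f : List ℕ → ℕ → Bool) : List ℕ → List ℕ → ℕ → Bool
  | [], acc, x => f acc x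
  | r :: rs, acc, x => (List.range (K + 1)).all fun t =>
      match (Nat.beq t K && !Nat.beq r 0) with
      | true => true
      | false => lift M K f rs ((r + M * t) :: acc) (Nat.add x (Nat.pow 2 (r + M * t)))

/-- small numbers are treated directly -/
def actb (x : ℕ) : Bool := match Nat.blt x 8192 with
  | true => true
  | false => act PA x

def leaf3 (_ : List ℕ) (x : ℕ) : Bool := match actb x with
  | true => hit P180 x
  | false => false

/-- The residues modulo `36`, sorted. -/
def srt (es : List ℕ) : List ℕ := (es.map (· % 36)).insertionSort (· ≤ ·)

def leaf2 (S : List (List ℕ)) (es : List ℕ) (x : ℕ) : Bool := match actb x with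
  | true => match hit P36 x with
    | true => true
    | false => S.contains (srt es)
  | false => false

def leaf1 (S : List (List ℕ)) (es : List ℕ) : Bool := lift 12 3 (leaf2 S) es [] 1

def lvl1 (S : List (List ℕ)) : ℕ → ℕ → ℕ → List ℕ → Bool
  | 0, _, x, acc => match hit P12 x with
    | true => true
    | false => S.contains acc
  | d + 1, lo, x, acc => (List.range 12).all fun e =>
      match Nat.blt e lo with
      | true => true
      | false => lvl1 S d e (Nat.add x (Nat.pow 2 e)) (e :: acc)

end Pool.Agent.H.MP_c90f74_nt.BD
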