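import Mathlib

/-!
# BD/SmallN: the numbers `n < 8192`
-/

set_option autoImplicit false

namespace Pool.Agent.H.MP_c90f74_nt.BD

/-- `v` is not prime: it is at most `1` or has a smaller divisor of the list. -/
def np (v : ℕ) : Bool :=
  Nat.ble v 1 || [3, 5, 7, 11, 13, 17, 19, 23, 29, 31, 37, 41, 43, 47, 53, 59, 61, 67, 71, 73, 79, 83, 89].any
    fun p => Nat.beq (Nat.mod v p) 0 && Nat.blt p v

def badb (n : ℕ) : Bool :=
  [1, 2, 3, 4, 5, 6, 7, 8, 9, 10, 11, 12].any fun k => Nat.blt (Nat.pow 2 k) n && np (n - Nat.pow 2 k)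

set_option maxRecDepth 100000 in
theorem small_all : ((List.range 4096).all fun j =>
    Nat.ble j 0 || [7, 15, 21, 45, 75, 105].contains (2 * j + 1) || badb (2 * j + 1)) = true := by decide +kernel

theorem np_spec {v : ℕ} (h : np v = true) : ¬ v.Prime := by
  unfold np at h
  rw [Bool.or_eq_true] at h
  rcases h with h | h
  · have h1 : v ≤ 1 := Nat.le_of_ble_eq_true h
    intro hp
    have := hp.two_le
    omega
  · obtain ⟨p, hp, h1⟩ := List.any_eq_true.1 h
    rw [Bool.and_eq_true] at h1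
    have h2 : v % p = 0 := Nat.eq_of_beq_eq_true h1.1
    have h3 : p < v := Eq.mp Nat.blt_eq h1.2
    have h4 : 1 < p := by
      simp only [List.mem_cons, List.not_mem_nil, or_false] at hp
      omega
    intro hv
    rcases (Nat.dvd_prime hv).1 (Nat.dvd_of_mod_eq_zero h2) with h5 | h5 <;> omega

theorem small_odd (n : ℕ) (hn : n < 8192) (h3 : 3 ≤ n) (hodd : n % 2 = 1)
    (hex : n ≠ 7 ∧ n ≠ 15 ∧ n ≠ 21 ∧ n ≠ 45 ∧ n ≠ 75 ∧ n ≠ 105) :
    ∃ k : ℕ, 1 ≤ k ∧ 2 ^ k < n ∧ ¬ (n - 2 ^ k).Prime := by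
  have h1 := List.all_eq_true.1 small_all (n / 2) (List.mem_range.2 (by omega))
  have h2 : 2 * (n / 2) + 1 = n := by omega
  rw [h2, Bool.or_eq_true, Bool.or_eq_true] at h1
  rcases h1 with (h1 | h1) | h1
  · have h4 : n / 2 ≤ 0 := Nat.le_of_ble_eq_true h1
    omega
  · rw [List.contains_iff_mem] at h1
    simp only [List.mem_cons, List.not_mem_nil, or_false] at h1
    omega
  · unfold badb at h1
    obtain ⟨k, hk, h5⟩ := List.any_eq_true.1 h1
    rw [Bool.and_eq_true] at h5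
    have h6 : 2 ^ k < n := Eq.mp Nat.blt_eq h5.1
    refine ⟨k, ?_, h6, np_spec h5.2⟩
    simp only [List.mem_cons, List.not_mem_nil, or_false] at hk
    omega

end Pool.Agent.H.MP_c90f74_nt.BD
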