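import Pool.Agent.H.MP_c90f74_nt.BD.Defs

/-!
# BD/TA: classes modulo 180
-/

set_option autoImplicit false

namespace Pool.Agent.H.MP_c90f74_nt.BD

set_option maxRecDepth 100000 in
theorem ta1 : lift 36 5 leaf3 [6, 12, 18, 24, 30] [] 1 = true := by decide +kernel

set_option maxRecDepth 100000 in
theorem ta2 : lift 36 5 leaf3 [0, 7, 13, 19, 25, 31] [] 1 = true := by decide +kernel

set_option maxRecDepth 100000 in
theorem ta3 : lift 36 5 leaf3 [5, 5, 12, 18, 24, 30] [] 1 = true := by decide +kernel

set_option maxRecDepth 100000 in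
theorem ta4 : lift 36 5 leaf3 [6, 11, 11, 18, 24, 30] [] 1 = true := by decide +kernel


end Pool.Agent.H.MP_c90f74_nt.BD
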