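import Pool.Agent.H.MP_c90f74_nt.BD.Defs

/-!
# BD/TB: classes modulo 180
-/

set_option autoImplicit false

namespace Pool.Agent.H.MP_c90f74_nt.BD

set_option maxRecDepth 100000 in
theorem tb1 : lift 36 5 leaf3 [6, 12, 17, 17, 24, 30] [] 1 = true := by decide +kernel

set_option maxRecDepth 100000 in
theorem tb2 : lift 36 5 leaf3 [6, 12, 18, 23, 23, 30] [] 1 = true := by decide +kernel

set_option maxRecDepth 100000 in
theorem tb3 : lift 36 5 leaf3 [6, 12, 18, 24, 29, 29] [] 1 = true := by decide +kernel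


end Pool.Agent.H.MP_c90f74_nt.BD
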