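import Pool.Agent.H.MP_c90f74_nt.BD.Big
import Pool.Agent.H.MP_c90f74_nt.BD.TA
import Pool.Agent.H.MP_c90f74_nt.BD.TB
import Pool.Agent.H.MP_c90f74_nt.BD.SmallN

/-!
# BD/Main: the theorem
-/

set_option autoImplicit false

namespace Pool.Agent.H.MP_c90f74_nt.BD

theorem lvl3_all : ∀ R ∈ S2, lift 36 5 leaf3 R [] 1 = true := by
  intro R hR
  unfold S2 at hR
  simp only [List.mem_cons, List.not_mem_nil, or_false] at hR
  rcases hR with h | h | h | h | h | h | h <;> rw [h]
  · exact ta1
  · exact ta2
  · exact ta3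
  · exact ta4
  · exact tb1
  · exact tb2
  · exact tb3

theorem sp_succ (l : List ℕ) : sp (l.map (· + 1)) = 2 * sp l := by
  induction l with
  | nil => simp [sp]
  | cons a l ih => rw [List.map_cons, sp_cons, sp_cons, ih, pow_succ]; ring

theorem digits_list (n : ℕ) : ∃ l : List ℕ, l.length = (Nat.digits 2 n).sum ∧ sp l = n := by
  induction n using Nat.strong_induction_on with
  | _ n ih =>
    rcases Nat.eq_zero_or_pos n with h0 | h0
    · subst h0
      exact ⟨[], by simp, by simp [sp]⟩
    · obtain ⟨l, hl1, hl2⟩ := ih (n / 2) (Nat.div_lt_self h0 (by norm_num))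
      rw [Nat.digits_def' (by norm_num) h0, List.sum_cons]
      rcases Nat.mod_two_eq_zero_or_one n with h | h
      · refine ⟨l.map (· + 1), ?_, ?_⟩
        · rw [List.length_map, hl1, h, zero_add]
        · rw [sp_succ, hl2]
          omega
      · refine ⟨0 :: l.map (· + 1), ?_, ?_⟩
        · rw [List.length_cons, List.length_map, hl1, h, add_comm]
        · rw [sp_cons, sp_succ, hl2, pow_zero]
          omega

theorem main (n : ℕ) (h3 : 3 ≤ n) (h7 : (Nat.digits 2 n).sum ≤ 7) :
    (∀ k : ℕ, 1 ≤ k → 2 ^ k < n → (n - 2 ^ k).Prime) ↔ n ∈ ({4, 7, 15, 21, 45, 75, 105} : Set ℕ) := by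
  constructor
  · intro hadm
    by_contra hne
    simp only [Set.mem_insert_iff, Set.mem_singleton_iff, not_or] at hne
    obtain ⟨n4, n7, n15, n21, n45, n75, n105⟩ := hne
    rcases Nat.mod_two_eq_zero_or_one n with h | h
    · have h1 := hadm 1 le_rfl (by omega)
      rw [pow_one] at h1
      rcases h1.eq_two_or_odd with h2 | h2 <;> omega
    · rcases Nat.lt_or_ge n 8192 with h8 | h8
      · obtain ⟨k, hk1, hk2, hk3⟩ := small_odd n h8 h3 h ⟨n7, n15, n21, n45, n75, n105⟩
        exact hk3 (hadm k hk1 hk2)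
      · obtain ⟨l, hl1, hl2⟩ := digits_list (n / 2)
        have h0 : 0 < n := by omega
        rw [Nat.digits_def' (by norm_num) h0, List.sum_cons, h] at h7
        have hn : 1 + sp (l.map (· + 1)) = n := by
          rw [sp_succ, hl2]
          omega
        obtain ⟨k, hk1, hk2, hk3⟩ := big lvl3_all (l.map (· + 1)) (by rw [List.length_map, hl1]; omega)
          (by rw [hn]; exact h8)
        rw [hn] at hk2 hk3
        exact hk3 (hadm k hk1 hk2)
  · intro hn k hk1 hk2
    have hk7 : k < 7 := by
      by_contra hc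
      have h1 : 2 ^ 7 ≤ 2 ^ k := Nat.pow_le_pow_right (by norm_num) (by omega)
      simp only [Set.mem_insert_iff, Set.mem_singleton_iff] at hn
      omega
    simp only [Set.mem_insert_iff, Set.mem_singleton_iff] at hn
    rcases hn with h | h | h | h | h | h | h <;> subst h <;> interval_cases k <;> first | omega | norm_num

end Pool.Agent.H.MP_c90f74_nt.BD
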