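import Pool.Agent.H.MP_c90f74_nt.BD.Defs

/-!
# BD/Sound2: soundness of the tests, with `k ≤ 180`
-/

set_option autoImplicit false

namespace Pool.Agent.H.MP_c90f74_nt.BE

open BD

/-- `n` is not admissible, with an exponent `k ≤ 180`. -/
def Bad (n : ℕ) : Prop := ∃ k : ℕ, 1 ≤ k ∧ k ≤ 180 ∧ 2 ^ k < n ∧ ¬ (n - 2 ^ k).Prime

theorem tb_eq (m v : ℕ) : tb m v = m.testBit v := by
  unfold tb
  rw [Nat.testBit_eq_decide_div_mod_eq]
  show Nat.beq (m / 2 ^ v % 2) 1 = decide (m / 2 ^ v % 2 = 1)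
  rw [Bool.eq_iff_iff, Nat.beq_eq, decide_eq_true_iff]

theorem mkMask_spec (p m v : ℕ) (h : tb (mkMask p m) v = true) : ∃ k, 1 ≤ k ∧ k ≤ m ∧ 2 ^ k % p = v := by
  induction m with
  | zero =>
    rw [tb_eq] at h
    unfold mkMask at h
    simp at h
  | succ m ih =>
    rw [tb_eq] at h ih
    unfold mkMask at h
    have h1 : (mkMask p m ||| 2 ^ (2 ^ (m + 1) % p)).testBit v = true := h
    rw [Nat.testBit_or, Bool.or_eq_true] at h1
    rcases h1 with h1 | h1
    · obtain ⟨k, hk1, hk2, hk3⟩ := ih h1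
      exact ⟨k, hk1, by omega, hk3⟩
    · rw [Nat.testBit_two_pow] at h1
      exact ⟨m + 1, by omega, le_rfl, by simpa using h1⟩

theorem hit_spec (l : List (ℕ × ℕ)) (x : ℕ) (h : hit l x = true) : ∃ q ∈ l, tb q.2 (x % q.1) = true := by
  induction l with
  | nil => simp [hit] at h
  | cons q l ih =>
    unfold hit at h
    have h0 : (match tb q.2 (x % q.1) with | true => true | false => hit l x) = true := h
    cases hq : tb q.2 (x % q.1) with
    | true => exact ⟨q, List.mem_cons_self, hq⟩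
    | false =>
      rw [hq] at h0
      obtain ⟨q', hq', h'⟩ := ih h0
      exact ⟨q', List.mem_cons_of_mem _ hq', h'⟩

theorem act_spec (l : List (ℕ × ℕ × ℕ)) (x : ℕ) (h : act l x = true) :
    ∃ q ∈ l, 2 ^ q.2.1 + q.1 < x ∧ tb q.2.2 (x % q.1) = true := by
  induction l with
  | nil => simp [act] at h
  | cons q l ih =>
    unfold act at h
    have h0 : (match Nat.blt (2 ^ q.2.1 + q.1) x with
      | true => match tb q.2.2 (x % q.1) with
        | true => true
        | false => act l x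
      | false => act l x) = true := h
    cases hb : Nat.blt (2 ^ q.2.1 + q.1) x with
    | true =>
      rw [hb] at h0
      cases hq : tb q.2.2 (x % q.1) with
      | true => exact ⟨q, List.mem_cons_self, Eq.mp Nat.blt_eq hb, hq⟩
      | false =>
        rw [hq] at h0
        obtain ⟨q', hq', h'⟩ := ih h0
        exact ⟨q', List.mem_cons_of_mem _ hq', h'⟩
    | false =>
      rw [hb] at h0
      obtain ⟨q', hq', h'⟩ := ih h0
      exact ⟨q', List.mem_cons_of_mem _ hq', h'⟩

theorem bad_of {n p k : ℕ} (hk : 1 ≤ k) (hk2 : k ≤ 180) (hp : 1 < p) (h : 2 ^ k + p < n) (he : 2 ^ k % p = n % p) : Bad n := by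
  refine ⟨k, hk, hk2, by omega, fun hpr => ?_⟩
  have h1 : p ∣ n - 2 ^ k := (Nat.modEq_iff_dvd' (by omega)).1 he
  rcases (Nat.dvd_prime hpr).1 h1 with h2 | h2
  · omega
  · omega

/-- The masks of a list of divisors of `2^M - 1`. -/
def okl (M : ℕ) (l : List (ℕ × ℕ)) : Bool :=
  l.all fun q => Nat.beq ((2 ^ M - 1) % q.1) 0 && Nat.blt 1 q.1 && Nat.beq q.2 (mkMask q.1 M)

theorem ok12 : okl 12 P12 = true := by decide +kernel

theorem ok36 : okl 36 P36 = true := by decide +kernel

theorem ok180 : okl 180 P180 = true := by decide +kernel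

theorem okA : (PA.all fun q => Nat.blt 1 q.1 && Nat.beq q.2.2 (mkMask q.1 q.2.1) && Nat.ble q.2.1 180) = true := by decide +kernel

theorem hit_bad (M : ℕ) (hM180 : M ≤ 180) (l : List (ℕ × ℕ)) (hl : okl M l = true) (n x : ℕ) (hx : hit l x = true)
    (hnx : n ≡ x [MOD 2 ^ M - 1]) (hn : 2 ^ (M + 1) ≤ n) : Bad n := by
  obtain ⟨q, hq, hqx⟩ := hit_spec l x hx
  unfold okl at hl
  have h1 := List.all_eq_true.1 hl q hq
  rw [Bool.and_eq_true, Bool.and_eq_true] at h1
  obtain ⟨⟨h2, h3⟩, h4⟩ := h1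
  have h2' : (2 ^ M - 1) % q.1 = 0 := Nat.eq_of_beq_eq_true h2
  have h3' : 1 < q.1 := Eq.mp Nat.blt_eq h3
  have h4' : q.2 = mkMask q.1 M := Nat.eq_of_beq_eq_true h4
  rw [h4'] at hqx
  obtain ⟨k, hk1, hk2, hk3⟩ := mkMask_spec _ _ _ hqx
  have hd : q.1 ∣ 2 ^ M - 1 := Nat.dvd_of_mod_eq_zero h2'
  have hnx' : n % q.1 = x % q.1 := hnx.of_dvd hd
  have hM : 1 ≤ M := by omega
  have hpow : 2 ≤ 2 ^ M := by
    calc 2 = 2 ^ 1 := rfl
      _ ≤ 2 ^ M := Nat.pow_le_pow_right (by norm_num) hM
  have hle : q.1 ≤ 2 ^ M - 1 := Nat.le_of_dvd (by omega) hd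
  have hk : 2 ^ k ≤ 2 ^ M := Nat.pow_le_pow_right (by norm_num) hk2
  rw [pow_succ] at hn
  exact bad_of hk1 (hk2.trans hM180) h3' (by omega) (by rw [hk3, hnx'])

theorem act_bad (n : ℕ) (h : act PA n = true) : Bad n := by
  obtain ⟨q, hq, h1, h2⟩ := act_spec PA n h
  have h3 := List.all_eq_true.1 okA q hq
  rw [Bool.and_eq_true, Bool.and_eq_true] at h3
  obtain ⟨⟨h4, h5⟩, h6⟩ := h3
  have h6' : q.2.1 ≤ 180 := Nat.le_of_ble_eq_true h6
  have h4' : 1 < q.1 := Eq.mp Nat.blt_eq h4
  have h5' : q.2.2 = mkMask q.1 q.2.1 := Nat.eq_of_beq_eq_true h5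
  rw [h5'] at h2
  obtain ⟨k, hk1, hk2, hk3⟩ := mkMask_spec _ _ _ h2
  have hk : 2 ^ k ≤ 2 ^ q.2.1 := Nat.pow_le_pow_right (by norm_num) hk2
  exact bad_of hk1 (by omega) h4' (by omega) hk3

/-- The sum of the powers of `2`. -/
def sp (es : List ℕ) : ℕ := (es.map (fun e => 2 ^ e)).sum

theorem sp_cons (e : ℕ) (es : List ℕ) : sp (e :: es) = 2 ^ e + sp es := by
  simp [sp]

theorem lift_spec (M K : ℕ) (f : List ℕ → ℕ → Bool) : ∀ (R acc : List ℕ) (x : ℕ), lift M K f R acc x = true →
    ∀ es : List ℕ, List.Forall₂ (fun r e => ∃ t, e = r + M * t ∧ (t < K ∨ (t = K ∧ r = 0))) R es →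
      f (es.reverse ++ acc) (x + sp es) = true := by
  intro R
  induction R with
  | nil =>
    intro acc x h es hes
    cases hes
    simpa [sp, lift] using h
  | cons r rs ih =>
    intro acc x h es hes
    cases hes with
    | cons h1 h2 =>
      rename_i e es'
      obtain ⟨t, ht, ht2⟩ := h1
      unfold lift at h
      have h3 := List.all_eq_true.1 h t (List.mem_range.2 (by omega))
      have h4 : (Nat.beq t K && !Nat.beq r 0) = false := by
        rcases ht2 with h5 | ⟨h5, h6⟩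
        · rw [Bool.and_eq_false_iff]
          left
          rw [← Bool.not_eq_true, Nat.beq_eq]
          omega
        · rw [Bool.and_eq_false_iff]
          right
          rw [h6]
          rfl
      rw [h4] at h3
      have h5 : lift M K f rs ((r + M * t) :: acc) (x + 2 ^ (r + M * t)) = true := h3
      have h6 := ih _ _ h5 es' h2
      rw [← ht] at h6
      rw [List.reverse_cons, List.append_assoc, sp_cons, ← add_assoc]
      exact h6

theorem lvl1_spec (S : List (List ℕ)) : ∀ (d lo x : ℕ) (acc : List ℕ), lvl1 S d lo x acc = true →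
    ∀ R : List ℕ, R.length = d → R.Pairwise (· ≤ ·) → (∀ e ∈ R, lo ≤ e ∧ e < 12) →
      hit P12 (x + sp R) = true ∨ (R.reverse ++ acc) ∈ S := by
  intro d
  induction d with
  | zero =>
    intro lo x acc h R hR _ _
    have hR0 : R = [] := List.length_eq_zero_iff.1 hR
    subst hR0
    unfold lvl1 at h
    cases hh : hit P12 x with
    | true =>
      left
      simpa [sp] using hh
    | false =>
      rw [hh] at h
      right
      simpa using h
  | succ d ih =>
    intro lo x acc h R hR hs hb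
    cases R with
    | nil => simp at hR
    | cons e R =>
      unfold lvl1 at h
      obtain ⟨he1, he2⟩ := hb e List.mem_cons_self
      have h3 := List.all_eq_true.1 h e (List.mem_range.2 he2)
      have h4 : Nat.blt e lo = false := by
        rw [← Bool.not_eq_true, Nat.blt_eq]
        omega
      rw [h4] at h3
      have h5 : lvl1 S d e (x + 2 ^ e) (e :: acc) = true := h3
      rw [List.pairwise_cons] at hs
      have h6 := ih e _ _ h5 R (by simpa using hR) hs.2
        (fun a ha => ⟨hs.1 a ha, (hb a (List.mem_cons_of_mem _ ha)).2⟩)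
      rw [sp_cons, ← add_assoc, List.reverse_cons, List.append_assoc]
      exact h6

end Pool.Agent.H.MP_c90f74_nt.BE
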